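import Pool.Agent.K9h72.DT.Main

/-!
Not every Turing degree below the `ω`-jump of zero is the degree of a countably categorical theory
with a computable model: there is a noncomputable set `D` which is computable in the `ω`-jump of
the empty set and such that every complete theory with a computable model which is computable in
`D` is computable.
-/

set_option autoImplicit false

namespace Pool.Agent.Results.MP_f36693_lc.NegativeAnswer

open Pool.Agent.K9h72.DT (Signature tmCode fmCode godelSet AtomicDiagram)
open Nat.Partrec (Code)
open Pool.Agent.Helper227 (TLe SI CEIn tLe_of_computable)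

/-! ### Turing reducibility and jumps of sets of natural numbers -/

open Classical in
/-- The characteristic function of a set of natural numbers. -/
noncomputable def chi (A : Set ℕ) : ℕ →. ℕ := fun n => Part.some (if n ∈ A then 1 else 0)

/-- Turing reducibility of sets of natural numbers (Mathlib's `TuringReducible` for the
characteristic functions). -/
def Red (A B : Set ℕ) : Prop := TuringReducible (chi A) (chi B)

open Classical in
/-- The Turing jump of the set `A`: the set of all `e` such that the `e`-th program with an oracle
for `A` halts on the input `e`. (A program with an oracle is given by an ordinary program which is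
run on the input together with a sufficiently long initial segment of the oracle; see
`jump_is_complete` below.) -/
def jump (A : Set ℕ) : Set ℕ :=
  {e | ∃ k : ℕ, ((Denumerable.ofNat Code e).eval
    (Encodable.encode ((List.range k).map (fun i => decide (i ∈ A)), e))).Dom}

/-- The `n`-th Turing jump of the empty set. -/
def iteratedJump : ℕ → Set ℕ
  | 0 => ∅
  | n + 1 => jump (iteratedJump n)

/-- The `ω`-jump of the empty set: the set of the codes of the pairs `(n, x)` for which `x`
belongs to the `n`-th jump of the empty set. -/
def omegaJump : Set ℕ := {z | z.unpair.2 ∈ iteratedJump z.unpair.1}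

/-! ### Theories and computable models -/

/-- The theory `T` has a computable model: there is a model of `T` whose universe is a computable
nonempty set of natural numbers and whose atomic diagram is computable. -/
def HasComputableModel (S : Signature) (T : S.lang.Theory) : Prop :=
  ∃ (U : Set ℕ) (_ : S.lang.Structure U), U.Nonempty ∧ ComputablePred (· ∈ U) ∧
    ComputablePred (· ∈ AtomicDiagram S U) ∧ U ⊨ T

/-! ### Checks -/

open Classical in
theorem chi_eq (A : Set ℕ) : chi A = Pool.Agent.Helper227.chi (fun n => decide (n ∈ A)) := by
  funext n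
  unfold chi Pool.Agent.Helper227.chi
  by_cases h : n ∈ A <;> simp [h]

open Classical in
theorem red_iff {A B : Set ℕ} :
    Red A B ↔ TLe (fun n => decide (n ∈ A)) (fun n => decide (n ∈ B)) := by
  unfold Red TLe
  rw [chi_eq, chi_eq]

open Classical in
theorem jump_eq (A : Set ℕ) : (fun n => decide (n ∈ jump A)) =
    Pool.Agent.Helper227.jump (fun n => decide (n ∈ A)) := by
  funext e
  rw [Bool.eq_iff_iff, decide_eq_true_eq, Pool.Agent.Helper227.jump_eq_true]
  rfl

/-- Check of the definition of the jump: a set is many-one reducible to the jump of `A` if and only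
if it is computably enumerable relative to `A`, i.e. the domain of a partial function which is
recursive in `A`. -/
theorem jump_is_complete {A W : Set ℕ} :
    (∃ f : ℕ →. ℕ, TuringReducible f (chi A) ∧ ∀ n, n ∈ W ↔ (f n).Dom) ↔
      ∃ g : ℕ → ℕ, Computable g ∧ ∀ n, n ∈ W ↔ g n ∈ jump A := by
  classical
  have h1 : (∃ f : ℕ →. ℕ, TuringReducible f (chi A) ∧ ∀ n, n ∈ W ↔ (f n).Dom) ↔
      SI (fun n => decide (n ∈ A)) (fun n => n ∈ W) := by
    rw [← SI.iff_ceIn]
    unfold CEIn
    rw [chi_eq]
  have h2 : ∀ n, n ∈ jump A ↔ Pool.Agent.Helper227.jump (fun n => decide (n ∈ A)) n = true := by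
    intro n
    rw [← jump_eq]
    simp
  rw [h1]
  constructor
  · intro h
    obtain ⟨g, hg, h3⟩ := h.to_jump
    exact ⟨g, hg, fun n => (h3 n).trans (h2 _).symm⟩
  · rintro ⟨g, hg, h3⟩
    exact (SI.comp_computable (Pool.Agent.Helper227.si_jump _) hg).of_eq
      fun n => ((h3 n).trans (h2 _)).symm

/-- Check of the Gödel numbering: it is injective. -/
theorem godel_numbering_injective {S : Signature} {n : ℕ} :
    Function.Injective (fmCode (S := S) (n := n)) :=
  Pool.Agent.K9h72.DT.fmCode_injective

open Classical in
theorem iteratedJump_eq (n : ℕ) : (fun x => decide (x ∈ iteratedJump n)) =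
    Pool.Agent.K9h72.DT.itJ n := by
  induction n with
  | zero =>
    funext x
    simp [iteratedJump, Pool.Agent.K9h72.DT.itJ, Pool.Agent.K9h72.DT.zro]
  | succ n ih =>
    rw [Pool.Agent.K9h72.DT.itJ, ← ih, ← jump_eq]
    rfl

open Classical in
theorem omegaJump_eq : (fun x => decide (x ∈ omegaJump)) = Pool.Agent.K9h72.DT.om := by
  funext z
  unfold omegaJump Pool.Agent.K9h72.DT.om
  rw [← iteratedJump_eq]
  rfl

/-! ### The result -/

/-- There is a noncomputable set `D`, computable in the `ω`-jump of the empty set, such that every
complete theory `T` (in any computable signature) which has a computable model and is computable in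
`D` is computable; hence no complete theory with a computable model, countably categorical or not,
has the Turing degree of `D`. -/
theorem result :
    ∃ D : Set ℕ, Red D omegaJump ∧ ¬ ComputablePred (· ∈ D) ∧
      ∀ (S : Signature) (T : S.lang.Theory), S.IsComputable → T.IsMaximal →
        HasComputableModel S T →
          (Red (godelSet T) D → ComputablePred (· ∈ godelSet T)) ∧
            ¬ (Red (godelSet T) D ∧ Red D (godelSet T)) := by
  classical
  obtain ⟨ρ, hρ, h0, h1, h2, h3⟩ := Pool.Agent.K9h72.DT.exists_rho
  obtain ⟨D, hD1, hD2, hD3⟩ := Pool.Agent.K9h72.DT.diag Pool.Agent.K9h72.DT.jump_le_om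
    (Pool.Agent.K9h72.DT.TT_le hρ)
  have hDD : (fun n => @decide (n ∈ ({n | D n = true} : Set ℕ))
      (Classical.propDecidable _)) = D := by
    funext n
    exact Bool.eq_iff_iff.2 (@decide_eq_true_iff (n ∈ ({n | D n = true} : Set ℕ))
      (Classical.propDecidable _))
  have hnc : ¬ ComputablePred (· ∈ ({n | D n = true} : Set ℕ)) := by
    intro h
    apply hD2
    obtain ⟨f, hf, h4⟩ := ComputablePred.computable_iff.1 h
    refine hf.of_eq fun n => ?_
    rw [Bool.eq_iff_iff]
    exact (iff_of_eq (congrFun h4 n)).symm
  refine ⟨{n | D n = true}, ?_, hnc, ?_⟩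
  · rw [red_iff, omegaJump_eq, hDD]
    exact hD1
  · rintro S T hS hT ⟨U, hU0, hU1, hU2, hU3, hU4⟩
    have key : Red (godelSet T) {n | D n = true} → ComputablePred (· ∈ godelSet T) := by
      intro hle
      have : Nonempty U := hU1.to_subtype
      obtain ⟨k, hk⟩ := Pool.Agent.K9h72.DT.exists_index h0 h1 h2 h3 hS hT hU2 hU3 hU4
      have hk' : Pool.Agent.K9h72.DT.TT ρ k = fun x => decide (x ∈ godelSet T) := funext hk
      rw [red_iff, hDD, ← hk'] at hle
      have h4 := hD3 k hle
      rw [hk'] at h4
      rw [ComputablePred.computable_iff]
      exact ⟨_, h4, by funext x; simp⟩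
    refine ⟨key, ?_⟩
    rintro ⟨h4, h5⟩
    apply hnc
    have h7 : Computable fun n => decide (n ∈ godelSet T) := (key h4).decide
    have h8 := Pool.Agent.Helper227.TLe.trans (red_iff.1 h5)
      (Pool.Agent.Helper227.computable_iff_tLe.1 h7)
    have h9 := Pool.Agent.Helper227.computable_iff_tLe.2 h8
    rw [ComputablePred.computable_iff]
    exact ⟨_, h9, by funext x; simp⟩

end Pool.Agent.Results.MP_f36693_lc.NegativeAnswer
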